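import Pool.Agent.TH956.Main

set_option autoImplicit false
set_option linter.unusedSectionVars false

/-!
# Letters for polynomials in several variables

Adaptation of `Pool.Agent.TH956.Letters`: the letters `u 0, u 1, ...` are chosen one after the
other, and the polynomials in the conditions may involve all the previous letters.
-/

namespace Pool.Agent.Y930.SM

open Finset Pool.Agent.TH956

section
variable {F : Type} [Field F] [CharZero F]

/-- The value of `f` at the letters of the list `t` (the other variables are zero). -/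
noncomputable def ev (t : List F) (f : MvPolynomial ℕ F) : F :=
  MvPolynomial.eval (fun i => t.getD i 0) f

/-- The polynomial in the next letter. -/
noncomputable def up (t : List F) (f : MvPolynomial ℕ F) : Polynomial F :=
  MvPolynomial.aeval (fun i : ℕ => if i < t.length then Polynomial.C (t.getD i 0)
    else if i = t.length then Polynomial.X else 0) f

theorem up_eval (t : List F) (f : MvPolynomial ℕ F) (u : F) :
    (up t f).eval u = ev (t ++ [u]) f := by
  unfold up ev
  have h := MvPolynomial.aeval_def (R := F) (fun i : ℕ => if i < t.length then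
    Polynomial.C (t.getD i 0) else if i = t.length then Polynomial.X else (0 : Polynomial F)) f
  rw [h, ← Polynomial.coe_evalRingHom, MvPolynomial.hom_eval₂]
  rw [MvPolynomial.eval, MvPolynomial.coe_eval₂Hom]
  congr 1
  · ext x
    simp
  · funext i
    rcases lt_trichotomy i t.length with h1 | h1 | h1
    · rw [List.getD_append _ _ _ _ h1]
      simp [h1]
    · rw [List.getD_append_right _ _ _ _ h1.ge]
      simp [h1]
    · have h2 : (t ++ [u]).length ≤ i := by
        rw [List.length_append, List.length_singleton]; omega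
      rw [List.getD_eq_default _ _ h2]
      simp [show ¬ i < t.length by omega, show i ≠ t.length by omega]

theorem ev_append_zero (t : List F) (f : MvPolynomial ℕ F) : ev (t ++ [0]) f = ev t f := by
  unfold ev
  congr 2
  funext i
  rcases lt_trichotomy i t.length with h1 | h1 | h1
  · rw [List.getD_append _ _ _ _ h1]
  · rw [List.getD_append_right _ _ _ _ h1.ge, List.getD_eq_default _ _ h1.ge]
    simp [h1]
  · rw [List.getD_eq_default _ _ (by simp; omega), List.getD_eq_default _ _ h1.le]

theorem up_natDegree (t : List F) (f : MvPolynomial ℕ F) :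
    (up t f).natDegree ≤ f.totalDegree := by
  unfold up
  have h := MvPolynomial.aeval_natDegree_le (n := 1) f le_rfl (fun i : ℕ => if i < t.length then
    Polynomial.C (t.getD i 0) else if i = t.length then Polynomial.X else (0 : Polynomial F)) (by
      intro i
      split_ifs
      · simp
      · exact Polynomial.natDegree_X_le
      · simp)
  simpa using h

variable {κ : Type}

/-- The colouring of a level. -/
noncomputable def Ps (c : F → κ) (P : Finset (MvPolynomial ℕ F)) (n R : ℕ) (t : List F) (z : F) :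
    ({B : Finset ℕ // B ⊆ range n} × P × Fin R) → κ :=
  fun x => c (pr t x.1.1 * z * (((x.2.2 : ℕ) + 1 : ℕ) : F) + ev t x.2.1.1)

/-- One polynomial of a level. -/
noncomputable def gp (t : List F) (B : Finset ℕ) (f : MvPolynomial ℕ F) (s : ℕ) : Polynomial F :=
  Polynomial.C (1 / (pr t B * ((s + 1 : ℕ) : F))) * (up t f - Polynomial.C (ev t f))

theorem gp_eval (t : List F) (B : Finset ℕ) (f : MvPolynomial ℕ F) (s : ℕ) (u : F) :
    (gp t B f s).eval u = 1 / (pr t B * ((s + 1 : ℕ) : F)) * (ev (t ++ [u]) f - ev t f) := by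
  simp [gp, up_eval]

open Classical in
/-- The polynomials of a level. -/
noncomputable def Gs (P : Finset (MvPolynomial ℕ F)) (n R : ℕ) (t : List F) :
    Finset (Polynomial F) :=
  ((range n).powerset ×ˢ (P ×ˢ range R)).image (fun x => gp t x.1 x.2.1 x.2.2)

theorem Gs_card (P : Finset (MvPolynomial ℕ F)) (n R : ℕ) (t : List F) :
    (Gs P n R t).card ≤ 2 ^ n * (P.card * R) := by
  classical
  unfold Gs
  refine card_image_le.trans ?_
  simp [card_product]

theorem mem_Gs {P : Finset (MvPolynomial ℕ F)} {n R : ℕ} {t : List F} {g : Polynomial F}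
    (hg : g ∈ Gs P n R t) : ∃ B, ∃ f ∈ P, ∃ s, g = gp t B f s := by
  classical
  unfold Gs at hg
  obtain ⟨x, hx, rfl⟩ := mem_image.1 hg
  simp only [mem_product] at hx
  exact ⟨_, _, hx.2.1, _, rfl⟩

theorem gp_mem_Gs {P : Finset (MvPolynomial ℕ F)} {n R : ℕ} {t : List F} {B : Finset ℕ}
    {f : MvPolynomial ℕ F} {s : ℕ} (hB : B ⊆ range n) (hf : f ∈ P) (hs : s < R) :
    gp t B f s ∈ Gs P n R t := by
  classical
  unfold Gs
  refine mem_image.2 ⟨(B, (f, s)), ?_, rfl⟩
  simp only [mem_product, mem_powerset, mem_range]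
  exact ⟨hB, hf, hs⟩

/-- The state of the construction. -/
structure St (c : F → κ) (P : Finset (MvPolynomial ℕ F)) (n : ℕ) (R : ℕ → ℕ) (rs : ℕ → List ℕ)
    (k : ℕ) (u : List F) : Prop where
  len : u.length = k
  ne : ∀ i, u.getD i 1 ≠ 0
  val : ∀ l < k, ∀ k' ≤ l, ∀ B ⊆ range k', ∀ f ∈ P,
    c (pr u B * u.getD l 1 + ev (u.take l) f) = c (pr u B * u.getD l 1 + ev (u.take k') f)
  fut : ∀ j, k ≤ j → j < n → SW ((rs j).drop k)
    (fun t => ∃ z, Good (Ps c P n (R j)) (Gs P n (R j)) (u ++ t) z)

theorem take_append_lt (u : List F) (a : F) (k : ℕ) (hk : k ≤ u.length) :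
    (u ++ [a]).take k = u.take k := by
  rw [List.take_append_of_le_length hk]

theorem take_succ_eq (u : List F) (k : ℕ) (hk : k < u.length) :
    u.take k ++ [u.getD k 1] = u.take (k + 1) := by
  rw [List.take_add_one, List.getD_eq_getElem?_getD, List.getElem?_eq_getElem hk]
  simp

/-- One step at a level. -/
theorem level {c : F → κ} {P : Finset (MvPolynomial ℕ F)} {n R : ℕ} {u : List F} {z : F}
    (hz : Good (Ps c P n R) (Gs P n R) u z) (hne : ∀ i, u.getD i 1 ≠ 0) {k : ℕ}
    (hk : k < u.length) {B : Finset ℕ} (hBk : B ⊆ range k) (hBn : B ⊆ range n)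
    {f : MvPolynomial ℕ F} (hf : f ∈ P) {s : ℕ} (hs1 : 1 ≤ s) (hsR : s ≤ R) (hs0 : (s : F) ≠ 0) :
    c (pr u B * z * (s : F) + ev (u.take (k + 1)) f)
      = c (pr u B * z * (s : F) + ev (u.take k) f) := by
  have h2 := Good.spec u _ _ _ hz k hk (gp (u.take k) B f (s - 1))
    (gp_mem_Gs hBn hf (by omega))
  have h3 := congrFun h2 (⟨B, hBn⟩, ⟨f, hf⟩, ⟨s - 1, by omega⟩)
  simp only [Ps, gp_eval] at h3
  have e1 : pr (u.take k) B = pr u B := pr_congr fun i hi =>
    getD_take_lt _ _ _ (mem_range.1 (hBk hi))
  have e3 : s - 1 + 1 = s := by omega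
  rw [e1, e3, take_succ_eq u k hk] at h3
  rw [← h3]
  have hpr : pr u B ≠ 0 := pr_ne hne
  congr 1
  field_simp
  ring

theorem St.step {c : F → κ} {P : Finset (MvPolynomial ℕ F)} {n : ℕ} {R : ℕ → ℕ}
    {rs : ℕ → List ℕ}
    (hc : ∀ x, c x = c 0 → x = 0) (hX : MvPolynomial.X 0 ∈ P) (hlen : ∀ j < n, (rs j).length = j)
    (hR : ∀ j < n, ∃ r, Fk n (R j) r ∧ ∀ j', j < j' → j' < n → (rs j').getD j 0 ≤ r)
    {k : ℕ} {u : List F} (h : St c P n R rs k u) (hk : k < n) :
    ∃ u', St c P n R rs (k + 1) u' := by
  classical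
  obtain ⟨r, ⟨hR1, hFk⟩, hr⟩ := hR k hk
  -- the base point
  obtain ⟨z, hz0, hz⟩ : ∃ z, z ≠ 0 ∧ Good (Ps c P n (R k)) (Gs P n (R k)) u z := by
    have h1 := h.fut k le_rfl hk
    rw [List.drop_of_length_le (hlen k hk).le] at h1
    simp only [SW, List.append_nil] at h1
    obtain ⟨z, hz⟩ := h1
    by_cases hk0 : k = 0
    · have hu : u = [] := List.eq_nil_of_length_eq_zero (by rw [h.len, hk0])
      subst hu
      exact ⟨1, one_ne_zero, trivial⟩
    · refine ⟨z, ?_, hz⟩
      rintro rfl
      have h2 := level hz h.ne (k := 0) (by rw [h.len]; omega) (B := ∅) (by simp) (by simp)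
        hX (s := 1) le_rfl hR1 (by simp)
      have e1 : ev (u.take 0) (MvPolynomial.X 0) = (0 : F) := by simp [ev]
      have e2 : ev (u.take (0 + 1)) (MvPolynomial.X 0) = u.getD 0 1 := by
        have hl : 0 < u.length := by rw [h.len]; omega
        rw [← take_succ_eq u 0 hl]
        simp [ev]
      rw [e1, e2] at h2
      have h4 := hc (u.getD 0 1) (by simpa using h2)
      exact h.ne 0 h4
  -- the multiplier
  obtain ⟨s, hs1, hsR, hs⟩ : ∃ s, 1 ≤ s ∧ s ≤ R k ∧ ∀ j, k + 1 ≤ j → j < n →
      SW ((rs j).drop (k + 1)) (fun t => ∃ z', Good (Ps c P n (R j)) (Gs P n (R j))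
        ((u ++ [z * (s : F)]) ++ t) z') := by
    by_contra hcon
    push Not at hcon
    obtain ⟨j, hj, x, hx⟩ := hFk (fun j s => k + 1 ≤ j ∧ ¬ SW ((rs j).drop (k + 1))
      (fun t => ∃ z', Good (Ps c P n (R j)) (Gs P n (R j)) ((u ++ [z * (s : F)]) ++ t) z')) (by
        intro s h1 h2
        obtain ⟨j, h3, h4, h5⟩ := hcon s h1 h2
        exact ⟨j, h4, h3, h5⟩)
    have hr0 : ∀ j', k + 1 ≤ j' → j' < n → (rs j').drop k =
        (rs j').getD k 0 :: (rs j').drop (k + 1) := by
      intro j' h1 h2
      have h3 : k < (rs j').length := by rw [hlen j' h2]; omega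
      rw [List.drop_eq_getElem_cons h3, List.getD_eq_getElem _ _ h3]
    by_cases hkj : k + 1 ≤ j
    · have h1 := h.fut j (by omega) hj
      rw [hr0 j hkj hj] at h1
      obtain ⟨α, hα, hαr, h2⟩ := h1 (fun i => z * (x i : F))
      refine (hx α hα (hαr.trans (range_subset_range.2 (hr j (by omega) hj)))).2 ?_
      have h3 : ∑ i ∈ α, z * (x i : F) = z * ((∑ i ∈ α, x i : ℕ) : F) := by
        rw [Nat.cast_sum, mul_sum]
      rw [h3] at h2
      simpa only [List.append_assoc, List.singleton_append] using h2
    · by_cases hr1 : r = 0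
      · obtain ⟨j', h3, h4, h5⟩ := hcon 1 le_rfl hR1
        have h1 := h.fut j' (by omega) h4
        rw [hr0 j' h3 h4] at h1
        obtain ⟨α, hα, hαr, h2⟩ := h1 (fun i => 0)
        have h6 := hr j' (by omega) h4
        rw [hr1] at h6
        have h7 := hαr.trans (range_subset_range.2 h6)
        simp only [range_zero, subset_empty] at h7
        exact hα.ne_empty h7
      · exact hkj (hx {0} (by simp) (by
          intro i hi
          rw [mem_singleton] at hi
          subst hi
          exact mem_range.2 (Nat.pos_of_ne_zero hr1))).1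
  have hs0 : (s : F) ≠ 0 := by
    have : s ≠ 0 := by omega
    exact_mod_cast this
  refine ⟨u ++ [z * (s : F)], ?_, ?_, ?_, ?_⟩
  · simp [h.len]
  · intro i
    rcases lt_trichotomy i u.length with h1 | h1 | h1
    · rw [getD_append_lt _ _ _ h1]; exact h.ne i
    · rw [h1, getD_append_len]; exact mul_ne_zero hz0 hs0
    · rw [List.getD_eq_default _ _ (by simp; omega)]
      exact one_ne_zero
  · intro l hl k' hk' B hB f hf
    have hlu : l ≤ u.length := by rw [h.len]; omega
    have hB1 : pr (u ++ [z * (s : F)]) B = pr u B := pr_congr fun i hi =>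
      getD_append_lt _ _ _ (by have := mem_range.1 (hB hi); omega)
    rw [hB1, take_append_lt u _ l hlu, take_append_lt u _ k' (by omega)]
    by_cases hlk : l < k
    · rw [getD_append_lt u _ l (by rw [h.len]; omega)]
      exact h.val l hlk k' hk' B hB f hf
    · have hlk' : l = u.length := by rw [h.len]; omega
      rw [hlk', getD_append_len]
      have hBn : B ⊆ range n := hB.trans (range_subset_range.2 (by omega))
      -- descend from `u.length` to `k'`
      have key : ∀ d, k' + d ≤ u.length →
          c (pr u B * (z * (s : F)) + ev (u.take (k' + d)) f)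
            = c (pr u B * (z * (s : F)) + ev (u.take k') f) := by
        intro d
        induction d with
        | zero => intro _; rfl
        | succ d ih =>
          intro hd
          rw [← ih (by omega)]
          have h5 := level hz h.ne (k := k' + d) (by omega) (B := B)
            (hB.trans (range_subset_range.2 (by omega))) hBn hf hs1 hsR hs0
          simpa only [mul_assoc, add_assoc] using h5
      have h6 := key (u.length - k') (by omega)
      rw [show k' + (u.length - k') = u.length by omega] at h6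
      exact h6
  · intro j hj hjn
    exact hs j hj hjn

/-- **The letters.** -/
theorem letters [Finite κ] (c : F → κ) (hc : ∀ x, c x = c 0 → x = 0)
    (P : Finset (MvPolynomial ℕ F)) (hX : MvPolynomial.X 0 ∈ P) (n : ℕ) :
    ∃ u : ℕ → F, (∀ i, u i ≠ 0) ∧ ∀ l < n, ∀ k ≤ l, ∀ B ⊆ range k, ∀ f ∈ P,
      c ((∏ i ∈ B, u i) * u l + MvPolynomial.eval (fun i => if i < l then u i else 0) f) =
        c ((∏ i ∈ B, u i) * u l + MvPolynomial.eval (fun i => if i < k then u i else 0) f) := by
  classical
  rcases Nat.eq_zero_or_pos n with rfl | hn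
  · exact ⟨fun _ => 1, fun _ => one_ne_zero, fun l hl => absurd hl (by omega)⟩
  -- the games
  have hG : ∀ j R : ℕ, ∃ rs : List ℕ, rs.length = j ∧
      SW rs (fun t => ∃ z, Good (Ps c P n R) (Gs P n R) t z) := by
    intro j R
    obtain ⟨rs, hrs, h⟩ := game (A := F) (P.sup MvPolynomial.totalDegree) j
      (Nat.card (({B : Finset ℕ // B ⊆ range n} × P × Fin R) → κ)) (2 ^ n * (P.card * R))
    refine ⟨rs, hrs, h _ le_rfl _ _ (fun t => Gs_card _ _ _ _) ?_ ?_⟩
    · intro t p hp
      obtain ⟨B, f, hf, s, rfl⟩ := mem_Gs hp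
      rw [gp_eval, ev_append_zero, sub_self, mul_zero]
    · intro t p hp
      obtain ⟨B, f, hf, s, rfl⟩ := mem_Gs hp
      unfold gp
      refine (Polynomial.natDegree_C_mul_le _ _).trans ?_
      refine (Polynomial.natDegree_sub_le _ _).trans ?_
      rw [Polynomial.natDegree_C, max_eq_left (Nat.zero_le _)]
      exact (up_natDegree t f).trans (le_sup (f := MvPolynomial.totalDegree) hf)
  choose G hGlen hG using hG
  obtain ⟨R, hR⟩ := exists_R n G (Fk n) (exists_fk n hn)
  have hall : ∀ k ≤ n, ∃ u, St c P n R (fun j => G j (R j)) k u := by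
    intro k
    induction k with
    | zero =>
      intro _
      refine ⟨[], rfl, fun i => by simp, fun l hl => absurd hl (by omega), fun j _ hj => ?_⟩
      simpa using hG j (R j)
    | succ k ih =>
      intro hk
      obtain ⟨u, hu⟩ := ih (by omega)
      exact hu.step hc hX (fun j _ => hGlen j (R j)) hR (by omega)
  obtain ⟨u, hu⟩ := hall n le_rfl
  have hev : ∀ l ≤ n, ∀ f : MvPolynomial ℕ F, ev (u.take l) f
      = MvPolynomial.eval (fun i => if i < l then u.getD i 1 else 0) f := by
    intro l hl f
    unfold ev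
    congr 2
    funext i
    by_cases hi : i < l
    · rw [if_pos hi]
      simp only [List.getD_eq_getElem?_getD, List.getElem?_take_of_lt hi]
      rw [List.getElem?_eq_getElem (by rw [hu.len]; omega)]
      rfl
    · rw [if_neg hi, List.getD_eq_default]
      rw [List.length_take, hu.len]
      omega
  refine ⟨fun i => u.getD i 1, hu.ne, fun l hl k hk B hB f hf => ?_⟩
  have h := hu.val l hl k hk B hB f hf
  rw [hev l hl.le, hev k (by omega)] at h
  exact h

end

end Pool.Agent.Y930.SM
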