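import Pool.Agent.Y930.SM.Letters

set_option autoImplicit false
set_option linter.unusedSectionVars false

/-!
# Monochromatic products and polynomial shifts in several variables
-/

namespace Pool.Agent.Y930.SM

open Finset Pool.Agent.TH956

section
variable {F : Type} [Field F] [CharZero F]

/-- The substitution of products of letters for the variables. -/
noncomputable def sub (m : ℕ) (D : Fin m → Finset ℕ) (f : MvPolynomial ℕ F) : MvPolynomial ℕ F :=
  MvPolynomial.bind₁ (fun j => if hj : j < m then ∏ i ∈ D ⟨j, hj⟩, MvPolynomial.X i else 0) f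

theorem eval_sub (m : ℕ) (D : Fin m → Finset ℕ) (f : MvPolynomial ℕ F) (g : ℕ → F) :
    MvPolynomial.eval g (sub m D f)
      = MvPolynomial.eval (fun j => if hj : j < m then ∏ i ∈ D ⟨j, hj⟩, g i else 0) f := by
  unfold sub
  have h := MvPolynomial.eval₂Hom_bind₁ (RingHom.id F) g
    (fun j => if hj : j < m then ∏ i ∈ D ⟨j, hj⟩, MvPolynomial.X i else (0 : MvPolynomial ℕ F)) f
  change MvPolynomial.eval₂Hom (RingHom.id F) g _ = _
  rw [h]
  change MvPolynomial.eval _ f = _
  congr 2
  funext j
  by_cases hj : j < m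
  · simp [hj, map_prod]
  · simp [hj]

theorem main_aux {κ : Type} [Finite κ] (c : F → κ) (hc : ∀ x, c x = c 0 → x = 0)
    (P : Finset (MvPolynomial ℕ F)) (m : ℕ) :
    ∃ x : ℕ → F, (∀ i, x i ≠ 0) ∧ ∃ col : κ,
      (∀ I ⊆ range m, I.Nonempty → c (∏ i ∈ I, x i) = col) ∧
      ∀ i < m, ∀ k ≤ i, ∀ J ⊆ range k, ∀ f ∈ P,
        c ((∏ j ∈ J, x j) * x i + MvPolynomial.eval (fun j => if j < i then x j else 0) f) =
          c ((∏ j ∈ J, x j) * x i + MvPolynomial.eval (fun j => if j < k then x j else 0) f) := by
  classical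
  obtain ⟨s, hs⟩ := folkman κ m
  obtain ⟨n, hn⟩ := ram_all κ s s
  let PP : Finset (MvPolynomial ℕ F) := insert (MvPolynomial.X 0)
    ((P ×ˢ Fintype.piFinset (fun _ : Fin m => (range n).powerset)).image (fun z => sub m z.2 z.1))
  obtain ⟨u, hu0, hu⟩ := letters c hc PP (mem_insert_self _ _) n
  obtain ⟨T, hTn, hTs, hT⟩ := hn (range n) (by simp) (fun B => c (∏ i ∈ B, u i))
  let e := T.orderEmbOfFin hTs
  let h : ℕ → ℕ := fun i => if hi : i < s then e ⟨i, hi⟩ else 0
  have hh : ∀ i j, i < j → j < s → h i < h j := by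
    intro i j hij hj
    simp only [h, dif_pos (hij.trans hj), dif_pos hj]
    exact e.strictMono (by simpa using hij)
  have hhle : ∀ i j, i ≤ j → j < s → h i ≤ h j := by
    intro i j hij hj
    rcases hij.eq_or_lt with rfl | h1
    · exact le_rfl
    · exact (hh i j h1 hj).le
  have hhT : ∀ i, i < s → h i ∈ T := by
    intro i hi
    simp only [h, dif_pos hi]
    exact T.orderEmbOfFin_mem hTs _
  have hhn : ∀ i, i < s → h i < n := fun i hi => mem_range.1 (hTn (hhT i hi))
  have hinj : ∀ i j, i < s → j < s → h i = h j → i = j := by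
    intro i j hi hj hij
    rcases lt_trichotomy i j with h1 | h1 | h1
    · have := hh i j h1 hj; omega
    · exact h1
    · have := hh j i h1 hi; omega
  have hinjOn : ∀ I : Finset ℕ, I ⊆ range s → Set.InjOn h (I : Set ℕ) := by
    intro I hI i hi j hj hij
    exact hinj i j (mem_range.1 (hI hi)) (mem_range.1 (hI hj)) hij
  -- the colour of a product depends only on the number of factors
  have hcol : ∀ I : Finset ℕ, I ⊆ range s → c (∏ i ∈ I, u (h i)) =
      c (∏ i ∈ range I.card, u (h i)) := by
    intro I hI
    have hIs : I.card ≤ s := by simpa using card_le_card hI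
    have hr : range I.card ⊆ range s := range_subset_range.2 hIs
    have hsub : ∀ I : Finset ℕ, I ⊆ range s → I.image h ⊆ T := by
      intro I hI i hi
      obtain ⟨j, hj, rfl⟩ := mem_image.1 hi
      exact hhT j (mem_range.1 (hI hj))
    have h7 := hT _ (hsub I hI) _ (hsub _ hr) (by
      rw [card_image_of_injOn (hinjOn I hI), card_image_of_injOn (hinjOn _ hr), card_range]) (by
      rw [card_image_of_injOn (hinjOn I hI)]; exact hIs)
    rw [prod_image (hinjOn I hI), prod_image (hinjOn _ hr)] at h7
    exact h7
  obtain ⟨a, col, ha, hfol⟩ := hs (fun k => c (∏ i ∈ range k, u (h i)))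
  -- the blocks
  set o : ℕ → ℕ := fun i => ∑ j ∈ range i, (a j - 1) with ho
  have ho1 : ∀ i, o (i + 1) = o i + (a i - 1) := fun i => by
    simp only [ho]; rw [sum_range_succ]
  have homono : Monotone o := monotone_nat_of_le_succ fun i => by rw [ho1]; omega
  set L := o m with hL
  have hLm : L + m = ∑ j ∈ range m, a j := by
    have h1 : ∀ j, a j = (a j - 1) + 1 := fun j => by have := ha j; omega
    rw [hL, ho]
    rw [sum_congr rfl fun j _ => h1 j, sum_add_distrib]
    simp
  have hLs : L + m ≤ s := by
    rcases Nat.eq_zero_or_pos m with rfl | hm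
    · simp [hL, ho]
    · rw [hLm]
      exact (hfol (range m) ⟨0, mem_range.2 hm⟩ subset_rfl).1
  let Q : ℕ → Finset ℕ := fun i => insert (L + i) (Ico (o i) (o (i + 1)))
  have hQlow : ∀ i < m, ∀ q ∈ Ico (o i) (o (i + 1)), q < L := by
    intro i hi q hq
    have h1 := (mem_Ico.1 hq).2
    have h2 := homono (show i + 1 ≤ m by omega)
    omega
  have hQs : ∀ i < m, ∀ q ∈ Q i, q ≤ L + i := by
    intro i hi q hq
    rcases mem_insert.1 hq with rfl | hq
    · exact le_rfl
    · have := hQlow i hi q hq; omega
  have hQs' : ∀ i < m, Q i ⊆ range s := by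
    intro i hi q hq
    have := hQs i hi q hq
    rw [mem_range]; omega
  have hQcard : ∀ i < m, (Q i).card = a i := by
    intro i hi
    have h1 : L + i ∉ Ico (o i) (o (i + 1)) := fun h => by
      have := hQlow i hi _ h; omega
    rw [card_insert_of_notMem h1, Nat.card_Ico, ho1]
    have := ha i
    omega
  have hQdisj : ∀ i < m, ∀ j < m, i ≠ j → Disjoint (Q i) (Q j) := by
    intro i hi j hj hij
    rw [disjoint_left]
    intro q hq hq'
    rcases mem_insert.1 hq with h1 | h1 <;> rcases mem_insert.1 hq' with h2 | h2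
    · omega
    · have := hQlow j hj q h2; omega
    · have := hQlow i hi q h1; omega
    · rw [mem_Ico] at h1 h2
      rcases lt_or_gt_of_ne hij with h3 | h3
      · have := homono (show i + 1 ≤ j by omega); omega
      · have := homono (show j + 1 ≤ i by omega); omega
  have hprodQ : ∀ I : Finset ℕ, I ⊆ range m →
      ∏ i ∈ I, ∏ q ∈ Q i, u (h q) = ∏ q ∈ I.biUnion Q, u (h q) := by
    intro I hI
    rw [prod_biUnion]
    intro i hi j hj hij
    exact hQdisj i (mem_range.1 (hI hi)) j (mem_range.1 (hI hj)) hij
  let x : ℕ → F := fun i => if i < m then ∏ q ∈ Q i, u (h q) else 1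
  have hxm : ∀ i < m, x i = ∏ q ∈ Q i, u (h q) := fun i hi => if_pos hi
  have hxI : ∀ I : Finset ℕ, I ⊆ range m → ∏ i ∈ I, x i = ∏ q ∈ I.biUnion Q, u (h q) := by
    intro I hI
    rw [← hprodQ I hI]
    exact prod_congr rfl fun i hi => hxm i (mem_range.1 (hI hi))
  refine ⟨x, ?_, col, ?_, ?_⟩
  · intro i
    simp only [x]
    split_ifs
    · exact prod_ne_zero_iff.2 fun q _ => hu0 _
    · exact one_ne_zero
  · intro I hI hne
    rw [hxI I hI]
    have hsub : I.biUnion Q ⊆ range s := by
      intro q hq
      obtain ⟨i, hi, hq⟩ := mem_biUnion.1 hq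
      exact hQs' i (mem_range.1 (hI hi)) hq
    rw [hcol _ hsub]
    have hcard : (I.biUnion Q).card = ∑ i ∈ I, a i := by
      rw [card_biUnion]
      · exact sum_congr rfl fun i hi => hQcard i (mem_range.1 (hI hi))
      · intro i hi j hj hij
        exact hQdisj i (mem_range.1 (hI hi)) j (mem_range.1 (hI hj)) hij
    rw [hcard]
    exact (hfol I hne hI).2
  · intro i hi k hk J hJ f hf
    -- the data for the letters
    set l := h (L + i) with hl
    set k' := h (L + k) with hk'
    set B : Finset ℕ := (J.biUnion Q ∪ Ico (o i) (o (i + 1))).image h with hB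
    have hJm : J ⊆ range m := hJ.trans (range_subset_range.2 (by omega))
    have hBpos : ∀ q ∈ J.biUnion Q ∪ Ico (o i) (o (i + 1)), q < L + k := by
      intro q hq
      rcases mem_union.1 hq with h1 | h1
      · obtain ⟨j, hj, hq⟩ := mem_biUnion.1 h1
        have h2 := mem_range.1 (hJ hj)
        have h3 := hQs j (by omega) q hq
        omega
      · have := hQlow i hi q h1
        omega
    have hBs : J.biUnion Q ∪ Ico (o i) (o (i + 1)) ⊆ range s := by
      intro q hq
      have := hBpos q hq
      rw [mem_range]; omega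
    have hBk : B ⊆ range k' := by
      intro b hb
      obtain ⟨q, hq, rfl⟩ := mem_image.1 hb
      exact mem_range.2 (hh _ _ (hBpos q hq) (by omega))
    let D : Fin m → Finset ℕ := fun j => (Q j).image h
    have hfh : sub m D f ∈ PP := by
      refine mem_insert_of_mem (mem_image.2 ⟨(f, D), ?_, rfl⟩)
      rw [mem_product, Fintype.mem_piFinset]
      refine ⟨hf, fun j => mem_powerset.2 fun b hb => ?_⟩
      obtain ⟨q, hq, rfl⟩ := mem_image.1 hb
      exact mem_range.2 (hhn q (mem_range.1 (hQs' j j.2 hq)))
    have h5 := hu l (hhn _ (by omega)) k' (hhle _ _ (by omega) (by omega)) B hBk _ hfh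
    -- the product
    have hprod : (∏ b ∈ B, u b) * u l = (∏ j ∈ J, x j) * x i := by
      rw [hB, prod_image (hinjOn _ hBs), hxI J hJm, hxm i hi, hl]
      have h6 : Disjoint (J.biUnion Q) (Ico (o i) (o (i + 1))) := by
        rw [disjoint_left]
        intro q hq hq'
        obtain ⟨j, hj, hq⟩ := mem_biUnion.1 hq
        have h7 := mem_range.1 (hJ hj)
        exact (disjoint_left.1 (hQdisj j (by omega) i hi (by omega))) hq
          (mem_insert_of_mem hq')
      rw [prod_union h6]
      have h8 : L + i ∉ Ico (o i) (o (i + 1)) := fun h => by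
        have := hQlow i hi _ h; omega
      rw [prod_insert h8]
      ring
    -- the evaluations
    have heval : ∀ p ≤ i, (fun j => if hj : j < m then
        ∏ b ∈ D ⟨j, hj⟩, (if b < h (L + p) then u b else 0) else (0 : F))
        = fun j => if j < p then x j else 0 := by
      intro p hp
      funext j
      by_cases hjm : j < m
      · rw [dif_pos hjm]
        simp only [D]
        rw [prod_image (hinjOn _ (hQs' j hjm))]
        by_cases hjp : j < p
        · rw [if_pos hjp, hxm j hjm]
          refine prod_congr rfl fun q hq => ?_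
          have := hQs j hjm q hq
          rw [if_pos (hh _ _ (by omega) (by omega))]
        · rw [if_neg hjp]
          refine prod_eq_zero (mem_insert_self (L + j) _) ?_
          rw [if_neg]
          have := hhle (L + p) (L + j) (by omega) (by omega)
          omega
      · rw [dif_neg hjm, if_neg (by omega)]
    rw [eval_sub, eval_sub, heval i le_rfl, heval k hk, hprod] at h5
    exact h5

/-- **Main theorem.** Let `c` be a finite colouring of a field of characteristic zero, `Z` a finite
set, `m` a number and `P` a finite set of polynomials in several variables. There are distinct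
`x 0, …, x (m-1)` such that all products of them, all sums of them, and all
`x_J x_i + f(x_0, …, x_{i-1})`, `f ∈ P`, where the elements of `J` are smaller than `k ≤ i` and
`f (x_0, …, x_{k-1}, 0, …, 0) = 0`, are nonzero, outside of `Z` and of the same colour. -/
theorem main {κ : Type} [Finite κ] (c : F → κ) (Z : Finset F) (P : Finset (MvPolynomial ℕ F))
    (m : ℕ) :
    ∃ (x : ℕ → F) (S : Set F), (∀ a ∈ S, a ≠ 0 ∧ a ∉ Z) ∧ (∀ a ∈ S, ∀ b ∈ S, c a = c b) ∧
      (∀ i < m, ∀ j < i, x i ≠ x j) ∧
      (∀ I ⊆ range m, I.Nonempty → ∏ i ∈ I, x i ∈ S ∧ ∑ i ∈ I, x i ∈ S) ∧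
      ∀ i < m, ∀ k ≤ i, ∀ J ⊆ range k, ∀ f ∈ P,
        MvPolynomial.eval (fun j => if j < k then x j else 0) f = 0 →
        (∏ j ∈ J, x j) * x i + MvPolynomial.eval (fun j => if j < i then x j else 0) f ∈ S := by
  classical
  let P' : Finset (MvPolynomial ℕ F) :=
    P ∪ ((range m).powerset.image (fun I => ∑ i ∈ I, MvPolynomial.X i)
      ∪ (range (m + 2)).image (fun j => - MvPolynomial.X j))
  let W : Finset F := insert 0 Z
  obtain ⟨x, hx0, col, h1, h2⟩ := main_aux (fun x => (c x, fun z : W => (decide (x = z.1) : Bool)))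
    (fun x h => by
      have h3 := congrFun (Prod.ext_iff.1 h).2 ⟨0, mem_insert_self _ _⟩
      simpa using h3) P' (m + 2)
  have key : ∀ i < m + 2, ∀ k ≤ i, ∀ J ⊆ range k, ∀ f ∈ P',
        MvPolynomial.eval (fun j => if j < k then x j else 0) f = 0 →
        (c ((∏ j ∈ J, x j) * x i + MvPolynomial.eval (fun j => if j < i then x j else 0) f),
          fun z : W => (decide ((∏ j ∈ J, x j) * x i
            + MvPolynomial.eval (fun j => if j < i then x j else 0) f = z.1) : Bool)) = col := by
    intro i hi k hk J hJ f hf h0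
    have h3 := h2 i hi k hk J hJ f hf
    rw [h3, h0, add_zero, mul_comm, ← prod_insert (fun h => by
      have := mem_range.1 (hJ h); omega)]
    exact h1 (insert i J) (by
      intro j hj
      rcases mem_insert.1 hj with rfl | hj
      · exact mem_range.2 hi
      · have := mem_range.1 (hJ hj)
        exact mem_range.2 (by omega)) (insert_nonempty _ _)
  have hdiff : ∀ i < m + 2, ∀ j < i, (c (x i - x j), fun z : W => (decide (x i - x j = z.1) : Bool))
      = col := by
    intro i hi j hj
    have h3 := key i hi 0 (Nat.zero_le _) ∅ (by simp) (- MvPolynomial.X j)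
      (mem_union_right _ (mem_union_right _ (mem_image.2 ⟨j, mem_range.2 (by omega), rfl⟩)))
      (by simp)
    have h4 : (∏ j ∈ (∅ : Finset ℕ), x j) * x i
        + MvPolynomial.eval (fun j => if j < i then x j else 0) (-MvPolynomial.X j : MvPolynomial ℕ F)
        = x i - x j := by
      simp [hj, sub_eq_add_neg]
    rw [h4] at h3
    exact h3
  have hW : ∀ z : W, col.2 z = false := by
    intro z
    by_contra hz
    rw [Bool.not_eq_false] at hz
    have g0 := h1 {0} (by simp) (by simp)
    have g1 := h1 {1} (by simp) (by simp)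
    have g2 := hdiff 1 (by omega) 0 (by omega)
    simp only [prod_singleton] at g0 g1
    have f0 := congrFun (congrArg Prod.snd g0) z
    have f1 := congrFun (congrArg Prod.snd g1) z
    have f2 := congrFun (congrArg Prod.snd g2) z
    simp only [hz, decide_eq_true_eq] at f0 f1 f2
    rw [f0, f1, sub_self] at f2
    exact hx0 0 (by rw [f0, ← f2])
  let S : Set F := {a | (c a, fun z : W => (decide (a = z.1) : Bool)) = col}
  have hS : ∀ a ∈ S, ∀ z : W, a ≠ z.1 := by
    intro a ha z hz
    have h3 := congrFun (congrArg Prod.snd (show (c a, fun z : W => (decide (a = z.1) : Bool)) = col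
      from ha)) z
    simp only [hW z, decide_eq_false_iff_not] at h3
    exact h3 hz
  refine ⟨x, S, fun a ha => ⟨hS a ha ⟨0, mem_insert_self _ _⟩, fun haZ =>
    hS a ha ⟨a, mem_insert_of_mem haZ⟩ rfl⟩, ?_, ?_, ?_, ?_⟩
  · intro a ha b hb
    have h3 := congrArg Prod.fst (show (c a, fun z : W => (decide (a = z.1) : Bool)) = col from ha)
    have h4 := congrArg Prod.fst (show (c b, fun z : W => (decide (b = z.1) : Bool)) = col from hb)
    exact h3.trans h4.symm
  · intro i hi j hj h
    have h3 : x i - x j ∈ S := hdiff i (by omega) j hj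
    exact hS _ h3 ⟨0, mem_insert_self _ _⟩ (sub_eq_zero.2 h)
  · intro I hI hne
    refine ⟨h1 I (hI.trans (range_subset_range.2 (by omega))) hne, ?_⟩
    set i := I.max' hne with hi
    have hiI : i ∈ I := max'_mem _ _
    have him : i < m := mem_range.1 (hI hiI)
    have h3 := key i (by omega) 0 (Nat.zero_le _) ∅ (by simp) (∑ j ∈ I.erase i, MvPolynomial.X j)
      (mem_union_right _ (mem_union_left _ (mem_image.2 ⟨I.erase i,
        mem_powerset.2 ((erase_subset _ _).trans hI), rfl⟩))) (by simp)
    have h4 : (∏ j ∈ (∅ : Finset ℕ), x j) * x i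
        + MvPolynomial.eval (fun j => if j < i then x j else 0)
          (∑ j ∈ I.erase i, MvPolynomial.X j : MvPolynomial ℕ F) = ∑ i ∈ I, x i := by
      rw [prod_empty, one_mul, map_sum, ← add_sum_erase _ _ hiI]
      congr 1
      refine sum_congr rfl fun j hj => ?_
      rw [MvPolynomial.eval_X, if_pos]
      rw [mem_erase] at hj
      exact lt_of_le_of_ne (le_max' _ _ hj.2) hj.1
    rw [h4] at h3
    exact h3
  · intro i hi k hk J hJ f hf h0
    exact key i (by omega) k hk J hJ f (mem_union_left _ hf) h0

end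

end Pool.Agent.Y930.SM
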